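import Mathlib
import Pool.Agent.W_MP_ce417a_nt.Words

set_option autoImplicit false

namespace Pool.Agent.Results.MP_ce417a_nt.IdentityObstruction

open MeasureTheory Filter

/-- The real `m × m` matrix `p(X)` obtained by substituting `x_k = X_k` in the word `p`
(a list of letters). -/
noncomputable def evalWord {m r : ℕ} (p : List (Fin r)) (X : Fin r → Fin m → Fin m → ℝ) :
    Matrix (Fin m) (Fin m) ℝ :=
  (p.map fun k => Matrix.of (X k)).prod

/-- The `m × (n m)` block matrix `psi^(P)(X) = p_1(X) ⊕ ... ⊕ p_n(X)`: column `j + m l` is column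
`j` of `p_l(X)`. -/
noncomputable def psi {m n r : ℕ} (P : Fin n → List (Fin r)) (X : Fin r → Fin m → Fin m → ℝ) :
    Matrix (Fin m) (Fin (n * m)) ℝ :=
  Matrix.of fun i c =>
    evalWord (P (finProdFinEquiv.symm c).1) X i (finProdFinEquiv.symm c).2

/-- The error vector `A q - p`. -/
noncomputable def err {m N : ℕ} (A : Matrix (Fin m) (Fin N) ℝ) (q : Fin N → ℤ) (p : Fin m → ℤ) :
    Fin m → ℝ :=
  fun i => A.mulVec (fun j => (q j : ℝ)) i - (p i : ℝ)

/-- The filter `‖q‖ → ∞` (sup norm) on pairs `(q, p)` of integer vectors. -/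
def qInfinity (m N : ℕ) : Filter ((Fin N → ℤ) × (Fin m → ℤ)) :=
  Filter.comap (fun x => ‖fun j => (x.1 j : ℝ)‖) Filter.atTop

/-- Extended logarithm of a nonnegative real, with value `-∞` at `0`. -/
noncomputable def elog (t : ℝ) : EReal := ENNReal.log (ENNReal.ofReal t)

/-- The exponent `ω(A)`. -/
noncomputable def omega {m N : ℕ} (A : Matrix (Fin m) (Fin N) ℝ) : EReal :=
  Filter.limsup (fun x : (Fin N → ℤ) × (Fin m → ℤ) =>
    (-elog ‖err A x.1 x.2‖) / elog ‖fun j => (x.1 j : ℝ)‖) (qInfinity m N)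

/-- The multiplicative exponent `ω_×(A)`. -/
noncomputable def omegaMul {m N : ℕ} (A : Matrix (Fin m) (Fin N) ℝ) : EReal :=
  Filter.limsup (fun x : (Fin N → ℤ) × (Fin m → ℤ) =>
    (-elog (∏ i, |err A x.1 x.2 i|)) / elog (∏ j, max |(x.1 j : ℝ)| 1)) (qInfinity m N)

/-- `A` is very well approximable: `ω(A) > N / m`. -/
def VWA {m N : ℕ} (A : Matrix (Fin m) (Fin N) ℝ) : Prop :=
  (((N : ℝ) / (m : ℝ) : ℝ) : EReal) < omega A

/-- `A` is very well multiplicatively approximable: `ω_×(A) > 1`. -/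
def VWMA {m N : ℕ} (A : Matrix (Fin m) (Fin N) ℝ) : Prop := 1 < omegaMul A

/-- The manifold `psi^(P)((M_{m,m})^r)` is extremal. -/
def Extremal (m : ℕ) {n r : ℕ} (P : Fin n → List (Fin r)) : Prop :=
  ∀ᵐ X : Fin r → Fin m → Fin m → ℝ, ¬ VWA (psi P X)

/-- The manifold `psi^(P)((M_{m,m})^r)` is strongly extremal. -/
def StronglyExtremal (m : ℕ) {n r : ℕ} (P : Fin n → List (Fin r)) : Prop :=
  ∀ᵐ X : Fin r → Fin m → Fin m → ℝ, ¬ VWMA (psi P X)

theorem ae_neBot_volume (r m : ℕ) :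
    (ae (volume : Measure (Fin r → Fin m → Fin m → ℝ))).NeBot := by
  have : Measure.IsOpenPosMeasure (volume : Measure (Fin r → Fin m → Fin m → ℝ)) :=
    Measure.pi.isOpenPosMeasure _
  infer_instance

theorem norm_smul_int {N : ℕ} (q : Fin N → ℤ) (t : ℕ) :
    ‖fun j => (((t : ℤ) * q j : ℤ) : ℝ)‖ = t * ‖fun j => (q j : ℝ)‖ := by
  have : (fun j => (((t : ℤ) * q j : ℤ) : ℝ)) = (t : ℝ) • fun j => (q j : ℝ) := by
    funext j; simp
  rw [this, norm_smul]
  simp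

theorem elog_one_lt {t : ℝ} (ht : 1 < t) : 0 < elog t ∧ elog t ≠ ⊤ := by
  have h1 : elog t = ((Real.log t : ℝ) : EReal) := by
    rw [elog, ENNReal.log_ofReal_of_pos (by linarith)]
  rw [h1]
  exact ⟨by exact_mod_cast Real.log_pos ht, EReal.coe_ne_top _⟩

theorem top_div_elog {t : ℝ} (ht : 1 < t) : (⊤ : EReal) / elog t = ⊤ :=
  EReal.top_div_of_pos_ne_top (elog_one_lt ht).1 (elog_one_lt ht).2

theorem frequently_qInfinity {m N : ℕ} (q : Fin N → ℤ) (hq : q ≠ 0)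
    (s : (Fin N → ℤ) × (Fin m → ℤ) → Prop)
    (hs : ∀ t : ℕ, 2 ≤ t → s (fun j => (t : ℤ) * q j, 0)) :
    ∃ᶠ x in qInfinity m N, s x := by
  rw [qInfinity, Filter.frequently_comap]
  rw [Filter.frequently_atTop]
  intro R
  have hq' : 0 < ‖fun j => (q j : ℝ)‖ := by
    rw [norm_pos_iff]
    intro h
    apply hq
    funext j
    have := congrFun h j
    simpa using this
  obtain ⟨t, ht⟩ := exists_nat_ge (max 2 (R / ‖fun j => (q j : ℝ)‖))
  have ht2 : 2 ≤ t := by exact_mod_cast (le_max_left _ _).trans ht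
  refine ⟨‖fun j => (((t : ℤ) * q j : ℤ) : ℝ)‖, ?_, (fun j => (t : ℤ) * q j, 0), rfl, hs t ht2⟩
  rw [norm_smul_int]
  have := (le_max_right _ _).trans ht
  rw [div_le_iff₀ hq'] at this
  exact this

theorem err_smul {m N : ℕ} (A : Matrix (Fin m) (Fin N) ℝ) (q : Fin N → ℤ)
    (hq : A.mulVec (fun j => (q j : ℝ)) = 0) (t : ℕ) :
    err A (fun j => (t : ℤ) * q j) 0 = 0 := by
  funext i
  have : (fun j => (((t : ℤ) * q j : ℤ) : ℝ)) = (t : ℝ) • fun j => (q j : ℝ) := by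
    funext j; simp
  simp only [err]
  rw [this, Matrix.mulVec_smul, hq]
  simp

theorem one_lt_of_int {N : ℕ} (q : Fin N → ℤ) (hq : q ≠ 0) (t : ℕ) (ht : 2 ≤ t) :
    1 < ‖fun j => (((t : ℤ) * q j : ℤ) : ℝ)‖ := by
  obtain ⟨j, hj⟩ : ∃ j, q j ≠ 0 := by
    by_contra h
    push Not at h
    exact hq (funext h)
  have h1 : ‖(((t : ℤ) * q j : ℤ) : ℝ)‖ ≤ ‖fun j => (((t : ℤ) * q j : ℤ) : ℝ)‖ :=
    norm_le_pi_norm (fun j => (((t : ℤ) * q j : ℤ) : ℝ)) j
  have h2 : (1 : ℝ) ≤ |(q j : ℝ)| := by exact_mod_cast Int.one_le_abs hj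
  have h3 : (2 : ℝ) ≤ t := by exact_mod_cast ht
  have h4 : ‖(((t : ℤ) * q j : ℤ) : ℝ)‖ = t * |(q j : ℝ)| := by
    push_cast
    rw [norm_mul, Real.norm_eq_abs, Real.norm_eq_abs, Nat.abs_cast]
  rw [h4] at h1
  nlinarith

theorem one_lt_prod_of_int {N : ℕ} (q : Fin N → ℤ) (hq : q ≠ 0) (t : ℕ) (ht : 2 ≤ t) :
    1 < ∏ j, max |(((t : ℤ) * q j : ℤ) : ℝ)| 1 := by
  obtain ⟨j, hj⟩ : ∃ j, q j ≠ 0 := by
    by_contra h
    push Not at h
    exact hq (funext h)
  rw [← Finset.mul_prod_erase Finset.univ _ (Finset.mem_univ j)]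
  have h2 : (1 : ℝ) ≤ |(q j : ℝ)| := by exact_mod_cast Int.one_le_abs hj
  have h3 : (2 : ℝ) ≤ t := by exact_mod_cast ht
  have h4 : |(((t : ℤ) * q j : ℤ) : ℝ)| = t * |(q j : ℝ)| := by
    push_cast
    rw [abs_mul, Nat.abs_cast]
  have h5 : (2 : ℝ) ≤ max |(((t : ℤ) * q j : ℤ) : ℝ)| 1 := by
    rw [h4]
    exact le_max_of_le_left (by nlinarith)
  have h6 : (1 : ℝ) ≤ ∏ j ∈ Finset.univ.erase j, max |(((t : ℤ) * q j : ℤ) : ℝ)| 1 :=
    Finset.one_le_prod fun i _ => le_max_right _ _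
  nlinarith

theorem omega_eq_top {m N : ℕ} (A : Matrix (Fin m) (Fin N) ℝ) (q : Fin N → ℤ) (hq : q ≠ 0)
    (h : A.mulVec (fun j => (q j : ℝ)) = 0) : omega A = ⊤ := by
  rw [eq_top_iff]
  refine Filter.le_limsup_of_frequently_le' (frequently_qInfinity q hq _ fun t ht => ?_)
  simp only
  rw [err_smul A q h t]
  have : elog ‖(0 : Fin m → ℝ)‖ = ⊥ := by simp [elog]
  rw [this, EReal.neg_bot, top_div_elog (one_lt_of_int q hq t ht)]

theorem omegaMul_eq_top {m N : ℕ} (hm : 0 < m) (A : Matrix (Fin m) (Fin N) ℝ) (q : Fin N → ℤ)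
    (hq : q ≠ 0) (h : A.mulVec (fun j => (q j : ℝ)) = 0) : omegaMul A = ⊤ := by
  rw [eq_top_iff]
  refine Filter.le_limsup_of_frequently_le' (frequently_qInfinity q hq _ fun t ht => ?_)
  simp only
  rw [err_smul A q h t]
  have h0 : ∏ i : Fin m, |(0 : Fin m → ℝ) i| = 0 :=
    Finset.prod_eq_zero (Finset.mem_univ ⟨0, hm⟩) (by simp)
  have : elog (∏ i : Fin m, |(0 : Fin m → ℝ) i|) = ⊥ := by rw [h0]; simp [elog]
  rw [this, EReal.neg_bot, top_div_elog (one_lt_prod_of_int q hq t ht)]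

/-- For all `m ≥ 2` and `r ≥ 2` there are `n ≥ 1` and pairwise distinct nonempty words
`p_1, ..., p_n` in `r` letters such that for EVERY `X` the matrix `psi^(P)(X)` has
`ω = ω_× = +∞` (so it is VWA and VWMA); hence the manifold is neither extremal nor strongly
extremal. -/
theorem result :
    ∀ m r : ℕ, 2 ≤ m → 2 ≤ r →
      ∃ (n : ℕ) (P : Fin n → List (Fin r)),
        1 ≤ n ∧ (∀ l, P l ≠ []) ∧ Function.Injective P ∧
        (∀ X : Fin r → Fin m → Fin m → ℝ, omega (psi P X) = ⊤ ∧ omegaMul (psi P X) = ⊤) ∧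
        ¬ Extremal m P ∧ ¬ StronglyExtremal m P := by
  intro m r hm hr
  set d := m * m + 1 with hd
  set n := Fintype.card (Equiv.Perm (Fin d)) with hn
  let e : Fin n ≃ Equiv.Perm (Fin d) := (Fintype.equivFin _).symm
  let y : Fin r := ⟨0, by omega⟩
  let x : Fin r := ⟨1, by omega⟩
  have hyx : y ≠ x := by
    intro h
    simp [y, x] at h
  let P : Fin n → List (Fin r) := fun l => W_MP_ce417a_nt.stdWord y x (e l)
  have hn1 : 1 ≤ n := Fintype.card_pos
  have hm0 : 0 < m := by omega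
  let q : Fin (n * m) → ℤ := fun c =>
    if (finProdFinEquiv.symm c).2 = ⟨0, hm0⟩ then
      (Equiv.Perm.sign (e (finProdFinEquiv.symm c).1) : ℤ) else 0
  have hq : q ≠ 0 := by
    intro h
    have h1 := congrFun h (finProdFinEquiv (⟨0, hn1⟩, ⟨0, hm0⟩))
    simp only [q, Equiv.symm_apply_apply, if_true, Pi.zero_apply] at h1
    exact (Units.ne_zero _) h1
  have hzero : ∀ X : Fin r → Fin m → Fin m → ℝ,
      (psi P X).mulVec (fun j => (q j : ℝ)) = 0 := by
    intro X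
    funext i
    have hid := W_MP_ce417a_nt.word_identity (m := m) (d := d) (by omega) y x
      (fun k => Matrix.of (X k))
    rw [← Equiv.sum_comp e] at hid
    have hid2 := congrFun (congrFun hid i) ⟨0, hm0⟩
    rw [Matrix.sum_apply] at hid2
    simp only [Matrix.mulVec, dotProduct, Pi.zero_apply]
    rw [← Equiv.sum_comp finProdFinEquiv]
    rw [Fintype.sum_prod_type]
    simp only [psi, q, Matrix.of_apply, Equiv.symm_apply_apply]
    rw [← hid2.trans (by simp : ((0 : Matrix (Fin m) (Fin m) ℝ) i ⟨0, hm0⟩) = 0)]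
    refine Finset.sum_congr rfl fun l _ => ?_
    rw [Finset.sum_eq_single (⟨0, hm0⟩ : Fin m)]
    · simp [evalWord, P, mul_comm]
    · intro b _ hb
      simp [hb]
    · simp
  have hall : ∀ X : Fin r → Fin m → Fin m → ℝ,
      omega (psi P X) = ⊤ ∧ omegaMul (psi P X) = ⊤ := fun X =>
    ⟨omega_eq_top _ q hq (hzero X), omegaMul_eq_top hm0 _ q hq (hzero X)⟩
  refine ⟨n, P, hn1, fun l => W_MP_ce417a_nt.stdWord_ne_nil y x (by omega) _, ?_, hall, ?_, ?_⟩
  · intro a b hab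
    have h1 := W_MP_ce417a_nt.stdWord_injective (d := d) y x hyx hab
    exact e.injective (Equiv.ext fun i => congrFun h1 i)
  · intro h
    have := ae_neBot_volume r m
    obtain ⟨X, hX⟩ := h.exists
    apply hX
    rw [VWA, (hall X).1]
    exact EReal.coe_lt_top _
  · intro h
    have := ae_neBot_volume r m
    obtain ⟨X, hX⟩ := h.exists
    apply hX
    rw [VWMA, (hall X).2]
    exact EReal.coe_lt_top 1

end Pool.Agent.Results.MP_ce417a_nt.IdentityObstruction
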